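import Pool.Agent.W978.QO.Stm

set_option autoImplicit false

namespace Pool.Agent.W765.QO

open Pool.Agent.W978.QN Pool.Agent.W978.QO

/-- the mixed coefficient -/
def D1 (M N : Fin 3 → Fin 3 → ℤ) : ℤ :=
  (N 0 0 * M 1 1 * M 2 2 + M 0 0 * N 1 1 * M 2 2 + M 0 0 * M 1 1 * N 2 2) -
  (N 0 0 * M 1 2 * M 2 1 + M 0 0 * N 1 2 * M 2 1 + M 0 0 * M 1 2 * N 2 1) -
  (N 0 1 * M 1 0 * M 2 2 + M 0 1 * N 1 0 * M 2 2 + M 0 1 * M 1 0 * N 2 2) +
  (N 0 1 * M 1 2 * M 2 0 + M 0 1 * N 1 2 * M 2 0 + M 0 1 * M 1 2 * N 2 0) +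
  (N 0 2 * M 1 0 * M 2 1 + M 0 2 * N 1 0 * M 2 1 + M 0 2 * M 1 0 * N 2 1) -
  (N 0 2 * M 1 1 * M 2 0 + M 0 2 * N 1 1 * M 2 0 + M 0 2 * M 1 1 * N 2 0)

theorem dm_comb (M N : Fin 3 → Fin 3 → ℤ) (x y : ℤ) :
    dm (fun i j => x * M i j + y * N i j) =
      dm M * x ^ 3 + D1 M N * x ^ 2 * y + D1 N M * x * y ^ 2 + dm N * y ^ 3 := by
  rw [dm_eq, dm_eq M, dm_eq N]
  unfold D1
  ring

/-- the cubic form -/
def ff (b : Fin 3 → Fin 3 → Fin 3 → ℤ) (r : Fin 3 → ℤ) : ℤ := dm (mp b r)

theorem ff_comb (b : Fin 3 → Fin 3 → Fin 3 → ℤ) (r s : Fin 3 → ℤ) :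
    ∃ B C : ℤ, ∀ x y : ℤ, ff b (fun i => x * r i + y * s i) =
      ff b r * x ^ 3 + B * x ^ 2 * y + C * x * y ^ 2 + ff b s * y ^ 3 := by
  refine ⟨D1 (mp b r) (mp b s), D1 (mp b s) (mp b r), fun x y => ?_⟩
  have h : (mp b (fun i => x * r i + y * s i) : Fin 3 → Fin 3 → ℤ) =
      fun k j => x * mp b r k j + y * mp b s k j := by
    funext k j
    unfold mp
    simp only [Fin.sum_univ_three]
    ring
  unfold ff
  rw [h, dm_comb]

theorem ff_smul (b : Fin 3 → Fin 3 → Fin 3 → ℤ) (r : Fin 3 → ℤ) (k : ℤ) :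
    ff b (fun i => k * r i) = k ^ 3 * ff b r := by
  obtain ⟨B, C, h⟩ := ff_comb b r 0
  have h1 := h k 0
  have e : (fun i => k * r i + 0 * (0 : Fin 3 → ℤ) i) = fun i => k * r i := by
    funext i
    simp
  rw [e] at h1
  rw [h1]
  ring

/-- dot product -/
def dt (w r : Fin 3 → ℤ) : ℤ := ∑ k, w k * r k

theorem dt_eq (w r : Fin 3 → ℤ) : dt w r = w 0 * r 0 + w 1 * r 1 + w 2 * r 2 := by
  unfold dt
  rw [Fin.sum_univ_three]

theorem cp0 (r s : Fin 3 → ℤ) : cp r s 0 = r 1 * s 2 - r 2 * s 1 := rfl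
theorem cp1 (r s : Fin 3 → ℤ) : cp r s 1 = r 2 * s 0 - r 0 * s 2 := rfl
theorem cp2 (r s : Fin 3 → ℤ) : cp r s 2 = r 0 * s 1 - r 1 * s 0 := rfl

/-- on the plane of `w`, the cross product is parallel to `w` -/
theorem cp_par {w r s : Fin 3 → ℤ} (hr : dt w r = 0) (hs : dt w s = 0) (c c' : Fin 3) :
    w c * cp r s c' = w c' * cp r s c := by
  rw [dt_eq] at hr hs
  fin_cases c <;> fin_cases c' <;>
    simp only [Fin.zero_eta, Fin.mk_one, Fin.reduceFinMk, cp0, cp1, cp2] <;>
    first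
      | ring1
      | linear_combination (r 0) * hs - (s 0) * hr
      | linear_combination (s 0) * hr - (r 0) * hs
      | linear_combination (r 1) * hs - (s 1) * hr
      | linear_combination (s 1) * hr - (r 1) * hs
      | linear_combination (r 2) * hs - (s 2) * hr
      | linear_combination (s 2) * hr - (r 2) * hs

theorem cp_ne {w r s : Fin 3 → ℤ} (hr : dt w r = 0) (hs : dt w s = 0) {c : Fin 3}
    (hc : w c ≠ 0) (h : cp r s ≠ 0) : cp r s c ≠ 0 := by
  intro h0
  apply h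
  funext c'
  have h1 := cp_par hr hs c c'
  rw [h0, mul_zero] at h1
  rcases mul_eq_zero.1 h1 with h2 | h2
  · exact absurd h2 hc
  · exact h2

/-- coplanar vectors -/
theorem rel {w r s v : Fin 3 → ℤ} (hr : dt w r = 0) (hs : dt w s = 0) (hv : dt w v = 0)
    {c : Fin 3} (hc : w c ≠ 0) (i : Fin 3) :
    cp r s c * v i = cp v s c * r i + cp r v c * s i := by
  have key : w c * (cp r s c * v i - cp v s c * r i - cp r v c * s i) = 0 := by
    rw [dt_eq] at hr hs hv
    fin_cases c <;> fin_cases i <;>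
      simp only [Fin.zero_eta, Fin.mk_one, Fin.reduceFinMk, cp0, cp1, cp2] <;>
      first
        | ring1
        | linear_combination (r 1 * s 2 - r 2 * s 1) * hv + (s 1 * v 2 - s 2 * v 1) * hr +
            (v 1 * r 2 - v 2 * r 1) * hs
        | linear_combination (r 2 * s 0 - r 0 * s 2) * hv + (s 2 * v 0 - s 0 * v 2) * hr +
            (v 2 * r 0 - v 0 * r 2) * hs
        | linear_combination (r 0 * s 1 - r 1 * s 0) * hv + (s 0 * v 1 - s 1 * v 0) * hr +
            (v 0 * r 1 - v 1 * r 0) * hs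
  have h2 := (mul_eq_zero.1 key).resolve_left hc
  linarith

theorem plane_zero {b : Fin 3 → Fin 3 → Fin 3 → ℤ} {w r1 r2 r3 r4 : Fin 3 → ℤ} (hw : w ≠ 0)
    (h1 : dt w r1 = 0) (h2 : dt w r2 = 0) (h3 : dt w r3 = 0) (h4 : dt w r4 = 0)
    (f1 : ff b r1 = 0) (f2 : ff b r2 = 0) (f3 : ff b r3 = 0) (f4 : ff b r4 = 0)
    (h12 : cp r1 r2 ≠ 0) (h32 : cp r3 r2 ≠ 0) (h13 : cp r1 r3 ≠ 0) (h42 : cp r4 r2 ≠ 0)
    (h14 : cp r1 r4 ≠ 0) (h34 : cp r3 r4 ≠ 0) (v : Fin 3 → ℤ) (hv : dt w v = 0) :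
    ff b v = 0 := by
  obtain ⟨c, hc⟩ : ∃ c, w c ≠ 0 := by
    by_contra h
    push Not at h
    exact hw (funext h)
  obtain ⟨B, C, hBC⟩ := ff_comb b r1 r2
  have hk := cp_ne h1 h2 hc h12
  have key : ∀ v : Fin 3 → ℤ, dt w v = 0 →
      (cp r1 r2 c) ^ 3 * ff b v = cp v r2 c * cp r1 v c * (B * cp v r2 c + C * cp r1 v c) := by
    intro v hv
    rw [← ff_smul]
    have e : (fun i => cp r1 r2 c * v i) = fun i => cp v r2 c * r1 i + cp r1 v c * r2 i := by
      funext i
      exact rel h1 h2 hv hc i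
    rw [e, hBC, f1, f2]
    ring
  have k3 := key r3 h3
  have k4 := key r4 h4
  rw [f3, mul_zero] at k3
  rw [f4, mul_zero] at k4
  have e3 : B * cp r3 r2 c + C * cp r1 r3 c = 0 :=
    (mul_eq_zero.1 k3.symm).resolve_left
      (mul_ne_zero (cp_ne h3 h2 hc h32) (cp_ne h1 h3 hc h13))
  have e4 : B * cp r4 r2 c + C * cp r1 r4 c = 0 :=
    (mul_eq_zero.1 k4.symm).resolve_left
      (mul_ne_zero (cp_ne h4 h2 hc h42) (cp_ne h1 h4 hc h14))
  have hdet : cp r3 r2 c * cp r1 r4 c - cp r4 r2 c * cp r1 r3 c =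
      cp r1 r2 c * cp r3 r4 c := by
    fin_cases c <;> simp only [Fin.zero_eta, Fin.mk_one, Fin.reduceFinMk, cp0, cp1, cp2] <;> ring
  have hd0 : cp r3 r2 c * cp r1 r4 c - cp r4 r2 c * cp r1 r3 c ≠ 0 := by
    rw [hdet]
    exact mul_ne_zero hk (cp_ne h3 h4 hc h34)
  have hB : B = 0 := by
    have : B * (cp r3 r2 c * cp r1 r4 c - cp r4 r2 c * cp r1 r3 c) = 0 := by
      linear_combination (cp r1 r4 c) * e3 - (cp r1 r3 c) * e4
    exact (mul_eq_zero.1 this).resolve_right hd0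
  have hC : C = 0 := by
    have : C * (cp r3 r2 c * cp r1 r4 c - cp r4 r2 c * cp r1 r3 c) = 0 := by
      linear_combination (cp r3 r2 c) * e4 - (cp r4 r2 c) * e3
    exact (mul_eq_zero.1 this).resolve_right hd0
  have kv := key v hv
  rw [hB, hC, zero_mul, zero_mul, add_zero, mul_zero] at kv
  exact (mul_eq_zero.1 kv).resolve_left (pow_ne_zero _ hk)

theorem cubic_zero (A0 A1 A2 A3 : ℤ) (s t : Fin 4 → ℤ) (hs : ∀ i, s i ≠ 0)
    (hst : ∀ i j, i ≠ j → s i * t j ≠ s j * t i)
    (h : ∀ i, A0 * s i ^ 3 + A1 * s i ^ 2 * t i + A2 * s i * t i ^ 2 + A3 * t i ^ 3 = 0) :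
    A0 = 0 := by
  set p : Polynomial ℚ := Polynomial.C (A0 : ℚ) + Polynomial.C (A1 : ℚ) * Polynomial.X +
    Polynomial.C (A2 : ℚ) * Polynomial.X ^ 2 + Polynomial.C (A3 : ℚ) * Polynomial.X ^ 3 with hp
  have hdeg : p.natDegree ≤ 3 := by
    rw [hp]
    compute_degree
  have hinj : Function.Injective fun i : Fin 4 => (t i : ℚ) / (s i : ℚ) := by
    intro i j hij
    by_contra hne
    apply hst i j hne
    have hi : (s i : ℚ) ≠ 0 := by exact_mod_cast hs i
    have hj : (s j : ℚ) ≠ 0 := by exact_mod_cast hs j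
    have h1 : (t i : ℚ) / (s i : ℚ) = (t j : ℚ) / (s j : ℚ) := hij
    rw [div_eq_div_iff hi hj] at h1
    have h2 : (s i : ℚ) * t j = s j * t i := by linarith
    exact_mod_cast h2
  have hp0 : p = 0 := by
    refine Polynomial.eq_zero_of_natDegree_lt_card_of_eval_eq_zero p hinj ?_ ?_
    · intro i
      have hi : (s i : ℚ) ≠ 0 := by exact_mod_cast hs i
      have h1 : (A0 : ℚ) * s i ^ 3 + A1 * s i ^ 2 * t i + A2 * s i * t i ^ 2 + A3 * t i ^ 3 = 0 := by
        exact_mod_cast h i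
      rw [hp]
      simp only [Polynomial.eval_add, Polynomial.eval_mul, Polynomial.eval_C, Polynomial.eval_X,
        Polynomial.eval_pow]
      field_simp
      linarith
    · rw [Fintype.card_fin]
      omega
  have h0 : p.coeff 0 = 0 := by rw [hp0]; simp
  rw [hp] at h0
  simp at h0
  exact_mod_cast h0

theorem exists_u {ι : Type} [Fintype ι] (z : ι → Fin 3 → ℤ) (hz : ∀ i, z i ≠ 0) :
    ∃ u : Fin 3 → ℤ, ∀ i, dt (z i) u ≠ 0 := by
  let p : ι → Polynomial ℤ := fun i => Polynomial.C (z i 0) + Polynomial.C (z i 1) * Polynomial.X +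
    Polynomial.C (z i 2) * Polynomial.X ^ 2
  have hp : ∀ i, p i ≠ 0 := by
    intro i h0
    apply hz i
    have c0 : (p i).coeff 0 = z i 0 := by simp [p]
    have c1 : (p i).coeff 1 = z i 1 := by
      simp only [p, Polynomial.coeff_add, Polynomial.coeff_C_mul, Polynomial.coeff_X_pow,
        Polynomial.coeff_X, Polynomial.coeff_C]
      norm_num
    have c2 : (p i).coeff 2 = z i 2 := by
      simp only [p, Polynomial.coeff_add, Polynomial.coeff_C_mul, Polynomial.coeff_X_pow,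
        Polynomial.coeff_X, Polynomial.coeff_C]
      norm_num
    rw [h0] at c0 c1 c2
    funext j
    fin_cases j
    · simpa using c0.symm
    · simpa using c1.symm
    · simpa using c2.symm
  have hprod : ∏ i, p i ≠ 0 := Finset.prod_ne_zero_iff.2 fun i _ => hp i
  obtain ⟨T, hT⟩ : ∃ T : ℤ, (∏ i, p i).eval T ≠ 0 := by
    by_contra h
    push Not at h
    exact hprod (Polynomial.funext fun r => by rw [h r, Polynomial.eval_zero])
  rw [Polynomial.eval_prod] at hT
  refine ⟨![1, T, T ^ 2], fun i => ?_⟩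
  have h1 := Finset.prod_ne_zero_iff.1 hT i (Finset.mem_univ i)
  rw [dt_eq]
  simp only [p, Polynomial.eval_add, Polynomial.eval_mul, Polynomial.eval_C, Polynomial.eval_X,
    Polynomial.eval_pow] at h1
  simpa using h1

/-- bad vectors -/
def Bad (b : Fin 3 → Fin 3 → Fin 3 → ℤ) (w : Fin 3 → ℤ) : Prop :=
  ∀ v, dt w v = 0 → ff b v = 0

theorem four_bad {b : Fin 3 → Fin 3 → Fin 3 → ℤ} (w : Fin 4 → Fin 3 → ℤ)
    (hb : ∀ i, Bad b (w i)) (hw : ∀ i j, i ≠ j → cp (w i) (w j) ≠ 0) (v : Fin 3 → ℤ) :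
    ff b v = 0 := by
  by_contra hv
  have hwv : ∀ i, dt (w i) v ≠ 0 := fun i h => hv (hb i v h)
  have hw0 : ∀ i, w i ≠ 0 := by
    intro i h
    have := hwv i
    rw [h] at this
    apply this
    unfold dt
    simp
  let z : Fin 4 × Fin 4 → Fin 3 → ℤ := fun p =>
    if p.1 = p.2 then w p.1 else fun k => dt (w p.1) v * w p.2 k - dt (w p.2) v * w p.1 k
  have hz : ∀ p, z p ≠ 0 := by
    rintro ⟨i, j⟩ h0
    by_cases hij : i = j
    · simp only [z, hij, if_true] at h0
      exact hw0 j h0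
    · simp only [z, hij, if_false] at h0
      apply hw i j hij
      have hk : ∀ k, dt (w i) v * w j k = dt (w j) v * w i k := by
        intro k
        have := congrFun h0 k
        simp only [Pi.zero_apply] at this
        linarith
      have hm : ∀ k l, w i k * w j l - w i l * w j k = 0 := by
        intro k l
        have h5 : dt (w i) v * (w i k * w j l - w i l * w j k) = 0 := by
          linear_combination (w i k) * hk l - (w i l) * hk k
        exact (mul_eq_zero.1 h5).resolve_left (hwv i)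
      funext c
      fin_cases c
      · exact hm 1 2
      · exact hm 2 0
      · exact hm 0 1
  obtain ⟨u, hu⟩ := exists_u z hz
  have hs : ∀ i, dt (w i) u ≠ 0 := by
    intro i
    have := hu (i, i)
    simpa [z] using this
  obtain ⟨B, C, hBC⟩ := ff_comb b v u
  apply hv
  refine cubic_zero (ff b v) B C (ff b u) (fun i => dt (w i) u) (fun i => -dt (w i) v) hs ?_ ?_
  · intro i j hij h
    have h1 := hu (i, j)
    simp only [z, hij, if_false] at h1
    apply h1
    rw [dt_eq] at h ⊢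
    simp only [dt_eq] at h ⊢
    linear_combination h
  · intro i
    rw [← hBC]
    refine hb i _ ?_
    rw [dt_eq, dt_eq, dt_eq]
    ring

theorem cp_symm {r s : Fin 3 → ℤ} (h : cp r s ≠ 0) : cp s r ≠ 0 := by
  intro h0
  apply h
  funext c
  have h1 := congrFun h0 c
  fin_cases c
  · simp only [Fin.zero_eta, cp0, Pi.zero_apply] at h1 ⊢
    linarith
  · simp only [Fin.mk_one, cp1, Pi.zero_apply] at h1 ⊢
    linarith
  · simp only [Fin.reduceFinMk, cp2, Pi.zero_apply] at h1 ⊢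
    linarith

theorem cp_zero {r s : Fin 3 → ℤ} (h : cp r s = 0) (i j : Fin 3) : r i * s j = r j * s i := by
  have h0 := congrFun h 0
  have h1 := congrFun h 1
  have h2 := congrFun h 2
  rw [cp0, Pi.zero_apply] at h0
  rw [cp1, Pi.zero_apply] at h1
  rw [cp2, Pi.zero_apply] at h2
  fin_cases i <;> fin_cases j <;> simp only [Fin.zero_eta, Fin.mk_one, Fin.reduceFinMk] <;>
    linarith

theorem prim_par {r s : Fin 3 → ℤ} (hr : Prim r) (hs : Prim s) (h : cp r s = 0) :
    s = r ∨ s = -r := by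
  obtain ⟨u, hu⟩ := hr
  obtain ⟨u', hu'⟩ := hs
  have h1 : ∀ j, s j = (∑ i, u i * s i) * r j := by
    intro j
    calc s j = (∑ i, u i * r i) * s j := by rw [hu, one_mul]
      _ = (∑ i, u i * s i) * r j := by
        rw [Finset.sum_mul, Finset.sum_mul]
        refine Finset.sum_congr rfl fun i _ => ?_
        have := cp_zero h i j
        linear_combination (u i) * this
  have h2 : ∀ j, r j = (∑ i, u' i * r i) * s j := by
    intro j
    calc r j = (∑ i, u' i * s i) * r j := by rw [hu', one_mul]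
      _ = (∑ i, u' i * r i) * s j := by
        rw [Finset.sum_mul, Finset.sum_mul]
        refine Finset.sum_congr rfl fun i _ => ?_
        have := cp_zero h i j
        linear_combination (-(u' i)) * this
  set m := ∑ i, u i * s i with hm
  set m' := ∑ i, u' i * r i with hm'
  have h3 : m * m' = 1 := by
    have e1 : ∀ j, u j * r j = m * m' * (u j * r j) := by
      intro j
      have e2 : r j = m' * (m * r j) := by rw [← h1 j]; exact h2 j
      calc u j * r j = u j * (m' * (m * r j)) := by rw [← e2]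
        _ = m * m' * (u j * r j) := by ring
    calc m * m' = m * m' * ∑ j, u j * r j := by rw [hu, mul_one]
      _ = ∑ j, m * m' * (u j * r j) := Finset.mul_sum _ _ _
      _ = ∑ j, u j * r j := Finset.sum_congr rfl fun j _ => (e1 j).symm
      _ = 1 := hu
  rcases Int.eq_one_or_neg_one_of_mul_eq_one h3 with h4 | h4
  · left
    funext j
    rw [h1 j, h4, one_mul]
  · right
    funext j
    rw [h1 j, h4, Pi.neg_apply]
    ring

theorem exists_int {b : Fin 3 → Fin 3 → Fin 3 → ℤ}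
    (h : ∃ p : Fin 3 → ℂ, (Matrix.of (mp b p)).det ≠ 0) : ∃ v : Fin 3 → ℤ, ff b v ≠ 0 := by
  obtain ⟨p, hp⟩ := h
  by_contra hno
  push Not at hno
  apply hp
  let Mx : Matrix (Fin 3) (Fin 3) (MvPolynomial (Fin 3) ℤ) :=
    Matrix.of fun k j => ∑ i, MvPolynomial.C (b i j k) * MvPolynomial.X i
  have h0 : Mx.det = 0 := by
    refine MvPolynomial.funext fun v => ?_
    rw [map_zero, RingHom.map_det]
    have e : (MvPolynomial.eval v).mapMatrix Mx = Matrix.of (mp b v) := by
      ext k j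
      simp [Mx, mp]
    rw [e]
    exact hno v
  have h1 : (MvPolynomial.aeval p Mx.det : ℂ) = 0 := by rw [h0, map_zero]
  rw [AlgHom.map_det] at h1
  have e : (MvPolynomial.aeval p).mapMatrix Mx = Matrix.of (mp b p) := by
    ext k j
    simp [Mx, mp]
  rw [e] at h1
  exact h1

theorem l3 : S_L3 := by
  classical
  intro b hb
  obtain ⟨v0, hv0⟩ := exists_int hb
  have hF : ∃ F : Finset (Fin 3 → ℤ), (∀ v ∈ F, v ≠ 0) ∧
      ∀ w : Fin 3 → ℤ, w ≠ 0 → Bad b w → ∃ v ∈ F, cp w v = 0 := by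
    by_cases c0 : ∀ w : Fin 3 → ℤ, w ≠ 0 → ¬ Bad b w
    · exact ⟨∅, by simp, fun w hw hbw => absurd hbw (c0 w hw)⟩
    push Not at c0
    obtain ⟨w1, hw1, hb1⟩ := c0
    by_cases c1 : ∀ w : Fin 3 → ℤ, w ≠ 0 → Bad b w → cp w w1 = 0
    · refine ⟨{w1}, by simpa using hw1, fun w hw hbw => ⟨w1, by simp, c1 w hw hbw⟩⟩
    push Not at c1
    obtain ⟨w2, hw2, hb2, h21⟩ := c1
    by_cases c2 : ∀ w : Fin 3 → ℤ, w ≠ 0 → Bad b w → cp w w1 = 0 ∨ cp w w2 = 0
    · refine ⟨{w1, w2}, ?_, ?_⟩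
      · intro v hv
        simp only [Finset.mem_insert, Finset.mem_singleton] at hv
        rcases hv with rfl | rfl
        · exact hw1
        · exact hw2
      · intro w hw hbw
        rcases c2 w hw hbw with h | h
        · exact ⟨w1, by simp, h⟩
        · exact ⟨w2, by simp, h⟩
    push Not at c2
    obtain ⟨w3, hw3, hb3, h31, h32⟩ := c2
    refine ⟨{w1, w2, w3}, ?_, ?_⟩
    · intro v hv
      simp only [Finset.mem_insert, Finset.mem_singleton] at hv
      rcases hv with rfl | rfl | rfl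
      · exact hw1
      · exact hw2
      · exact hw3
    · intro w hw hbw
      by_contra hno
      push Not at hno
      have n1 := hno w1 (by simp)
      have n2 := hno w2 (by simp)
      have n3 := hno w3 (by simp)
      refine hv0 (four_bad (b := b) ![w1, w2, w3, w] ?_ ?_ v0)
      · intro i
        fin_cases i
        · exact hb1
        · exact hb2
        · exact hb3
        · exact hbw
      · intro i j hij
        fin_cases i <;> fin_cases j
        · exact absurd rfl hij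
        · exact cp_symm h21
        · exact cp_symm h31
        · exact cp_symm n1
        · exact h21
        · exact absurd rfl hij
        · exact cp_symm h32
        · exact cp_symm n2
        · exact h31
        · exact h32
        · exact absurd rfl hij
        · exact cp_symm n3
        · exact n1
        · exact n2
        · exact n3
        · exact absurd rfl hij
  obtain ⟨F, hF0, hF1⟩ := hF
  refine ⟨F, hF0, ?_⟩
  intro w hw hwF S hS
  have hgood : ∃ v, dt w v = 0 ∧ ff b v ≠ 0 := by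
    by_contra hno
    push Not at hno
    obtain ⟨v, hv, h⟩ := hF1 w hw hno
    exact hwF v hv h
  obtain ⟨v, hv, hfv⟩ := hgood
  have hS1 : ∀ r ∈ S, Prim r := fun r hr => (hS r hr).1
  have hS2 : ∀ r ∈ S, dt w r = 0 := fun r hr => (hS r hr).2.1
  have hS3 : ∀ r ∈ S, ff b r = 0 := fun r hr => (hS r hr).2.2
  have hpar : ∀ r ∈ S, ∀ s ∈ S, s ≠ r → s ≠ -r → cp s r ≠ 0 := by
    intro r hr s hs h1 h2 h0
    rcases prim_par (hS1 s hs) (hS1 r hr) h0 with h | h
    · exact h1 h.symm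
    · apply h2
      rw [h, neg_neg]
  rcases S.eq_empty_or_nonempty with hSe | ⟨r1, hr1⟩
  · rw [hSe]
    simp
  by_cases d1 : ∀ s ∈ S, s = r1 ∨ s = -r1
  · have : S ⊆ {r1, -r1} := by
      intro s hs
      simpa using d1 s hs
    exact (Finset.card_le_card this).trans (Finset.card_le_two.trans (by norm_num))
  push Not at d1
  obtain ⟨r2, hr2, h21, h21'⟩ := d1
  by_cases d2 : ∀ s ∈ S, s = r1 ∨ s = -r1 ∨ s = r2 ∨ s = -r2
  · have : S ⊆ {r1, -r1, r2, -r2} := by
      intro s hs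
      simpa using d2 s hs
    exact (Finset.card_le_card this).trans (Finset.card_le_four.trans (by norm_num))
  push Not at d2
  obtain ⟨r3, hr3, h31, h31', h32, h32'⟩ := d2
  have : S ⊆ {r1, -r1, r2, -r2, r3, -r3} := by
    intro s hs
    simp only [Finset.mem_insert, Finset.mem_singleton]
    by_contra hno
    push Not at hno
    obtain ⟨s1, s1', s2, s2', s3, s3'⟩ := hno
    apply hfv
    have q21 := hpar r1 hr1 r2 hr2 h21 h21'
    have q31 := hpar r1 hr1 r3 hr3 h31 h31'
    have q32 := hpar r2 hr2 r3 hr3 h32 h32'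
    have q41 := hpar r1 hr1 s hs s1 s1'
    have q42 := hpar r2 hr2 s hs s2 s2'
    have q43 := hpar r3 hr3 s hs s3 s3'
    exact plane_zero hw (hS2 r1 hr1) (hS2 r2 hr2) (hS2 r3 hr3) (hS2 s hs)
      (hS3 r1 hr1) (hS3 r2 hr2) (hS3 r3 hr3) (hS3 s hs)
      (cp_symm q21) q32 (cp_symm q31) q42 (cp_symm q41) (cp_symm q43) v hv
  exact (Finset.card_le_card this).trans Finset.card_le_six

end Pool.Agent.W765.QO
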